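import Pool.Agent.MWE.Stmts

/-!
# Row LXR of squad MWE
-/

set_option autoImplicit false

namespace Pool.Agent.MWE.H13

open Pool.Agent.Helper14_MV Pool.Agent.Helper2_MV Pool.Agent.MVD Pool.Agent.MWE

theorem lx_of {β : FIC} (hM : ModF β) (h3 : Iso3 β) (hS2 : ¬ S2 β) : Lx β := by
  have hb0 : Bfr [0, 1, 2] 0 1 := ⟨[], [], [2], rfl⟩
  have hb2 : ¬ Bfr [0, 1, 2] 2 1 := by
    rintro ⟨A, B, C, h⟩
    rcases A with _ | ⟨a, A⟩
    · simp only [List.nil_append, List.cons.injEq] at h
      omega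
    · rcases A with _ | ⟨a', A⟩
      · simp only [List.nil_append, List.cons_append, List.cons.injEq] at h
        omega
      · rcases A with _ | ⟨a'', A⟩
        · simp only [List.nil_append, List.cons_append, List.cons.injEq] at h
          have h1 := h.2.2.2
          have h2 := congrArg List.length h1
          simp at h2
        · have h2 := congrArg List.length h
          simp only [List.cons_append, List.length_cons, List.length_append, List.length_nil] at h2
          omega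
  have hrg : rg β (Bfr [0, 1, 2] (0 + 2) 1) (Bfr [0, 1, 2] 0 1) :=
    ⟨fun h _ => absurd h hb2, fun _ h => absurd hb0 h, fun h _ => absurd h hb2, fun _ _ => hS2⟩
  have h := Pool.Agent.MWD.H11.prpF β hM h3 1 [0, 1, 2] [0] (by decide) (by decide)
    ⟨0, [], rfl, hrg⟩ ⟨0, [], rfl, hrg⟩ (Or.inl hS2)
  have e1 : Ew [0, 1, 2] [0] [0, 3] = [0, 3, 2, 0, 1, 3, 5, 1, 8] := by decide
  have e2 : Ew [0, 1, 2] [0] [3, 0] = [3, 0, 2, 0, 1, 3, 5, 1, 8] := by decide
  rw [e1, e2] at h
  have h4 := h.sub (fun i => if i = 0 then [0] else if i = 3 then [3] else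
    if i = 2 then [2] else [])
  exact h4

theorem lxr : LxrStmt := by
  intro β hM h3 h
  have hmir := Pool.Agent.MVD.H81.mir β
  obtain ⟨m0, m1, -, m3, e1, e2, e3, -⟩ := hmir
  rcases h with h | ⟨h2, h1, h3'⟩
  · refine ⟨lx_of hM h3 h, ?_⟩
    have hL : Lx (mir β) := lx_of (m1 hM) (m3 h3) (fun hs => h (e2.1 hs))
    have hR : RR β [3, 0, 2, 3, 0] [3, 0, 2, 0, 3] := (m0 _ _).1 hL
    exact hR.sub (fun i => if i = 0 then [3] else if i = 3 then [0] else [i])
  · have hF := Pool.Agent.MWD.H11.ffcF β hM h3 h2 h1 h3'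
    have hZ := Pool.Agent.MWD.H11.zzcF β hM h3 h2 h1 h3'
    refine ⟨?_, ?_⟩
    · exact hF [] [2] [] [] 0 3 (fun a ha => by simp at ha)
    · exact hZ [] [2] [] [] 0 3 (fun a ha => by simp at ha)

end Pool.Agent.MWE.H13
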