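import Pool.Agent.MWE.Stmts

/-!
# Row FAL of squad MWE
-/

set_option autoImplicit false

namespace Pool.Agent.MWE.H13

open Pool.Agent.Helper14_MV Pool.Agent.Helper2_MV Pool.Agent.MVD Pool.Agent.MWE

/-- the theorem for the empty word -/
theorem nil_case {β : FIC} (h : Hy β) : FC β [] ∧ ZC β [] := by
  constructor
  · intro p q r x y _
    have h1 := h.lx.sub (fun i => if i = 0 then [x] else if i = 3 then [y] else q)
    have h2 := ((RR.refl (β := β) p).append h1).append (RR.refl (β := β) r)
    have e1 : (p ++ [0, 3, 2, 0, 3].flatMap (fun i => if i = 0 then [x] else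
        if i = 3 then [y] else q)) ++ r = p ++ x :: y :: (q ++ x :: ([] ++ y :: r)) := by
      simp [List.flatMap_cons]
    have e2 : (p ++ [3, 0, 2, 0, 3].flatMap (fun i => if i = 0 then [x] else
        if i = 3 then [y] else q)) ++ r = p ++ y :: x :: (q ++ x :: ([] ++ y :: r)) := by
      simp [List.flatMap_cons]
    rw [e1, e2] at h2
    exact h2
  · intro p q r x y _
    have h1 := h.rx.sub (fun i => if i = 0 then [x] else if i = 3 then [y] else q)
    have h2 := ((RR.refl (β := β) p).append h1).append (RR.refl (β := β) r)
    have e1 : (p ++ [0, 3, 2, 0, 3].flatMap (fun i => if i = 0 then [x] else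
        if i = 3 then [y] else q)) ++ r = p ++ x :: ([] ++ y :: (q ++ x :: y :: r)) := by
      simp [List.flatMap_cons]
    have e2 : (p ++ [0, 3, 2, 3, 0].flatMap (fun i => if i = 0 then [x] else
        if i = 3 then [y] else q)) ++ r = p ++ x :: ([] ++ y :: (q ++ y :: x :: r)) := by
      simp [List.flatMap_cons]
    rw [e1, e2] at h2
    exact h2

/-- the step for `FC` -/
theorem step (hred : RedStmt) (heea : EeaStmt) {β : FIC} (h : Hy β) {c : List ℕ} (hc : c ≠ [])
    (ih : IH β c) : FC β c := by
  apply hred β c ih hc
  intro m R c' hcan hR hb hne hnd hnr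
  by_contra hno
  refine heea β m R c' h.md ?_
  exact
    { i3 := h.i3
      i2 := h.i2
      ih := fun c'' hs => ih c'' (by
        unfold Sm at hs ⊢
        rw [hnd, hnr] at hs
        exact hs)
      can := hcan
      ne := hne
      pR := hR
      b01 := hb
      no := hno }

theorem main (hred : RedStmt) (hmie : MieStmt) (heea : EeaStmt) (N : ℕ) : ∀ (M : ℕ) (β : FIC),
    Hy β → ∀ c : List ℕ, nd c = N → nr c = M → FC β c ∧ ZC β c := by
  induction N using Nat.strong_induction_on with
  | _ N ihN =>
    intro M
    induction M using Nat.strong_induction_on with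
    | _ M ihM =>
      have hIH : ∀ β : FIC, Hy β → ∀ c : List ℕ, nd c = N → nr c = M → IH β c := by
        intro β h c hN hM c' hs
        rcases hs with hs | ⟨hs1, hs2⟩
        · exact ihN (nd c') (by omega) (nr c') β h c' rfl rfl
        · rcases Nat.lt_or_ge (nd c') N with hlt | hge
          · exact ihN (nd c') hlt (nr c') β h c' rfl rfl
          · exact ihM (nr c') (by omega) β h c' (by omega) rfl
      intro β h c hN hM
      by_cases hc : c = []
      · rw [hc]
        exact nil_case h
      · refine ⟨step hred heea h hc (hIH β h c hN hM), ?_⟩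
        obtain ⟨hmy, hfz, hnn⟩ := hmie β
        have h1 : FC (mir β) c.reverse := by
          refine step hred heea (hmy h) (fun h2 => hc (List.reverse_eq_nil_iff.1 h2))
            (hIH (mir β) (hmy h) c.reverse ?_ ?_)
          · rw [(hnn c).1]
            exact hN
          · rw [(hnn c).2]
            exact hM
        have h2 := (hfz c.reverse).1.1 h1
        rw [List.reverse_reverse] at h2
        exact h2

theorem fal (hred : RedStmt) (hmie : MieStmt) (heea : EeaStmt) : FalStmt := by
  intro β h
  constructor
  · intro p q c r x y hm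
    exact (main hred hmie heea (nd c) (nr c) β h c rfl rfl).1 p q r x y hm
  · intro p q c r x y hm
    exact (main hred hmie heea (nd c) (nr c) β h c rfl rfl).2 p q r x y hm

end Pool.Agent.MWE.H13
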